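import Pool.Agent.Run7.h460.QA.Uni
import Pool.Agent.Q283.Q3.Ku

/-!
# Selmer ranks and average ranks over arbitrary dense sets of cubic twists
-/

set_option autoImplicit false

open scoped Classical

namespace Run7.h460.QA

open Finset Filter Topology
open Q283.Q3B Q283.Q3N
open Q283.Q3A (sum_pi)
open Q283.Q3 (cq cq_eq cq_ge sum_cq c3_pos)
open Pool.Agent.Y703.CX (c3)

/-- the multipliers -/
structure IsM (m : ℕ) : Prop where
  adm : Adm m
  sqf : Squarefree m

/-- the measure of a set of vectors -/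
noncomputable def lw {n : ℕ} (T : Set (Fin n → ℕ)) : ℝ := ∑' r : T, ∏ k, cq (r.1 k)

theorem lw_hasSum {n : ℕ} (T : Set (Fin n → ℕ)) :
    HasSum (fun r : Fin n → ℕ => if r ∈ T then ∏ k, cq (r k) else 0) (lw T) := by
  unfold lw
  rw [tsum_subtype T fun r => ∏ k, cq (r k)]
  have e : (T.indicator fun r => ∏ k, cq (r k)) =
      fun r : Fin n → ℕ => if r ∈ T then ∏ k, cq (r k) else 0 := by
    funext r
    by_cases hr : r ∈ T
    · rw [Set.indicator_of_mem hr, if_pos hr]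
    · rw [Set.indicator_of_notMem hr, if_neg hr]
  rw [← e]
  exact ((sum_pi n).summable.indicator T).hasSum

theorem prod_ge {n : ℕ} (r : Fin n → ℕ) : 0 ≤ ∏ k, cq (r k) := prod_nonneg fun _ _ => cq_ge _

theorem lw_nonneg {n : ℕ} (T : Set (Fin n → ℕ)) : 0 ≤ lw T :=
  (lw_hasSum T).nonneg fun r => by
    split_ifs
    · exact prod_ge r
    · exact le_rfl

theorem lw_le {n : ℕ} (T : Set (Fin n → ℕ)) : lw T ≤ 1 :=
  hasSum_le (fun r => by
    split_ifs
    · exact le_rfl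
    · exact prod_ge r) (lw_hasSum T) (sum_pi n)

theorem lw_compl {n : ℕ} (T : Set (Fin n → ℕ)) : lw Tᶜ = 1 - lw T := by
  refine (lw_hasSum Tᶜ).unique (((sum_pi n).sub (lw_hasSum T)).congr_fun fun r => ?_)
  by_cases hr : r ∈ T
  · simp [hr]
  · simp [hr]

theorem lw_mul {n m : ℕ} (T : Set (Fin n → ℕ)) (T' : Set (Fin m → ℕ)) :
    lw {r : Fin (n + m) → ℕ | (fun k => r (Fin.castAdd m k)) ∈ T ∧
      (fun k => r (Fin.natAdd n k)) ∈ T'} = lw T * lw T' := by
  have h := HasSum.mul (lw_hasSum T) (lw_hasSum T')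
    (Summable.mul_of_nonneg (lw_hasSum T).summable (lw_hasSum T').summable
    (fun r => by
      show 0 ≤ if r ∈ T then ∏ k, cq (r k) else 0
      split_ifs
      · exact prod_ge r
      · exact le_rfl)
    (fun r => by
      show 0 ≤ if r ∈ T' then ∏ k, cq (r k) else 0
      split_ifs
      · exact prod_ge r
      · exact le_rfl))
  have h2 := (Fin.appendEquiv (α := ℕ) n m).symm.hasSum_iff.2 h
  refine (lw_hasSum _).unique (h2.congr_fun fun r => ?_)
  show _ = (if ((Fin.appendEquiv n m).symm r).1 ∈ T then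
      ∏ k, cq (((Fin.appendEquiv n m).symm r).1 k) else 0) *
    (if ((Fin.appendEquiv n m).symm r).2 ∈ T' then
      ∏ k, cq (((Fin.appendEquiv n m).symm r).2 k) else 0)
  have e1 : ((Fin.appendEquiv n m).symm r).1 = fun k => r (Fin.castAdd m k) := rfl
  have e2 : ((Fin.appendEquiv n m).symm r).2 = fun k => r (Fin.natAdd n k) := rfl
  rw [e1, e2]
  by_cases h1 : (fun k => r (Fin.castAdd m k)) ∈ T
  · by_cases h2 : (fun k => r (Fin.natAdd n k)) ∈ T'
    · rw [if_pos h1, if_pos h2, if_pos (show r ∈ {r : Fin (n + m) → ℕ |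
        (fun k => r (Fin.castAdd m k)) ∈ T ∧ (fun k => r (Fin.natAdd n k)) ∈ T'} from ⟨h1, h2⟩),
        Fin.prod_univ_add]
    · rw [if_neg h2, mul_zero, if_neg]
      exact fun h => h2 h.2
  · rw [if_neg h1, zero_mul, if_neg]
    exact fun h => h1 h.1

/-- the ranks of a vector of twists -/
noncomputable def rv' {n : ℕ} (m : Fin n → ℕ) (D : ℕ) : Fin n → ℕ := fun k => rr (D * m k)

theorem law1 {n : ℕ} (m : Fin n → ℕ) (hm : ∀ k, IsM (m k)) (hi : Function.Injective m)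
    (T : Set (Fin n → ℕ)) : Tendsto (fun X : ℕ =>
      (((SN X).filter fun D => rv' m D ∈ T).card : ℝ) / ((SN X).card : ℝ)) atTop (𝓝 (lw T)) :=
  law_rr m (fun k => (hm k).adm) (fun k => (hm k).sqf) hi T

theorem law2 {n n' : ℕ} (m : Fin n → ℕ) (m' : Fin n' → ℕ) (hm : ∀ k, IsM (m k))
    (hm' : ∀ k, IsM (m' k)) (hi : Function.Injective m) (hi' : Function.Injective m')
    (hd : ∀ k l, m k ≠ m' l) (T : Set (Fin n → ℕ)) (T' : Set (Fin n' → ℕ)) :
    Tendsto (fun X : ℕ =>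
      (((SN X).filter fun D => rv' m D ∈ T ∧ rv' m' D ∈ T').card : ℝ) / ((SN X).card : ℝ)) atTop
      (𝓝 (lw T * lw T')) := by
  have h := law1 (Fin.append m m') (fun k => by
      refine Fin.addCases (fun i => ?_) (fun i => ?_) k
      · rw [Fin.append_left]
        exact hm i
      · rw [Fin.append_right]
        exact hm' i) (by
      intro a b
      refine Fin.addCases (fun i => ?_) (fun i => ?_) a
      · refine Fin.addCases (fun j => ?_) (fun j => ?_) b
        · rw [Fin.append_left, Fin.append_left]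
          exact fun h => congrArg _ (hi h)
        · rw [Fin.append_left, Fin.append_right]
          exact fun h => absurd h (hd i j)
      · refine Fin.addCases (fun j => ?_) (fun j => ?_) b
        · rw [Fin.append_left, Fin.append_right]
          exact fun h => absurd h.symm (hd j i)
        · rw [Fin.append_right, Fin.append_right]
          exact fun h => congrArg _ (hi' h))
      {r : Fin (n + n') → ℕ | (fun k => r (Fin.castAdd n' k)) ∈ T ∧
        (fun k => r (Fin.natAdd n k)) ∈ T'}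
  rw [lw_mul] at h
  refine h.congr fun X => ?_
  congr 2
  refine Q283.Bin.fcc fun D _ => ?_
  have e1 : (fun k => rv' (Fin.append m m') D (Fin.castAdd n' k)) = rv' m D := by
    funext k
    unfold rv'
    rw [Fin.append_left]
  have e2 : (fun k => rv' (Fin.append m m') D (Fin.natAdd n k)) = rv' m' D := by
    funext k
    unfold rv'
    rw [Fin.append_right]
  rw [Set.mem_ofPred_eq, e1, e2]

/-- **The Selmer ranks in arbitrary dense sets, uniformly.** -/
theorem freq_le {n : ℕ} (J : Finset (Fin n → ℕ)) (hJ : ∀ m ∈ J, (∀ k, IsM (m k)) ∧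
      Function.Injective m) (hd : ∀ m ∈ J, ∀ m' ∈ J, m ≠ m' → ∀ k l, m k ≠ m' l)
    (T : Set (Fin n → ℕ)) {ε δ : ℝ} (hε : 0 < ε) (hδ : 0 < δ) :
    ∀ᶠ X in atTop, ∀ A ⊆ SN X, δ * ((SN X).card : ℝ) ≤ (A.card : ℝ) →
      ((J.filter fun m => (lw T + ε) * (A.card : ℝ) <
        ((A.filter fun D => rv' m D ∈ T).card : ℝ)).card : ℝ) ≤ 1 / 2 / (δ * ε ^ 2) := by
  have hs : ∀ (A : Finset ℕ) (m : Fin n → ℕ), ∑ D ∈ A, (if rv' m D ∈ T then (1 : ℝ) else 0) =
      ((A.filter fun D => rv' m D ∈ T).card : ℝ) := by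
    intro A m
    rw [card_filter]
    push_cast
    rfl
  have hp0 := lw_nonneg T
  have hp1 := lw_le T
  have h := uni' ne_SN J (fun m D => if rv' m D ∈ T then (1 : ℝ) else 0) (lw T) (lw T) (1 / 2)
    (by nlinarith [sq_nonneg (lw T - 1 / 2)]) (by norm_num)
    (fun m hm => (law1 m (hJ m hm).1 (hJ m hm).2 T).congr fun X => by rw [hs])
    (fun m hm => (law1 m (hJ m hm).1 (hJ m hm).2 T).congr fun X => by
      rw [← hs]
      congr 1
      refine sum_congr rfl fun D _ => ?_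
      split_ifs <;> norm_num)
    (fun m hm m' hm' hne => (law2 m m' (hJ m hm).1 (hJ m' hm').1 (hJ m hm).2 (hJ m' hm').2
      (hd m hm m' hm' hne) T T).congr fun X => by
      congr 1
      rw [card_filter]
      push_cast
      refine sum_congr rfl fun D _ => ?_
      by_cases h1 : rv' m D ∈ T <;> by_cases h2 : rv' m' D ∈ T <;> simp [h1, h2]) hε hδ
  filter_upwards [h] with X hX A hA hAc
  have h2 := hX A hA hAc
  simp only [hs] at h2
  exact h2

theorem freq {n : ℕ} (J : Finset (Fin n → ℕ)) (hJ : ∀ m ∈ J, (∀ k, IsM (m k)) ∧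
      Function.Injective m) (hd : ∀ m ∈ J, ∀ m' ∈ J, m ≠ m' → ∀ k l, m k ≠ m' l)
    (T : Set (Fin n → ℕ)) {ε δ : ℝ} (hε : 0 < ε) (hδ : 0 < δ) :
    ∀ᶠ X in atTop, ∀ A ⊆ SN X, δ * ((SN X).card : ℝ) ≤ (A.card : ℝ) →
      ((J.filter fun m => ε < |((A.filter fun D => rv' m D ∈ T).card : ℝ) / (A.card : ℝ) -
        lw T|).card : ℝ) ≤ 1 / (δ * ε ^ 2) := by
  obtain ⟨T', hT'⟩ : ∃ T', T' = Tᶜ := ⟨_, rfl⟩
  have hmT : ∀ r, r ∈ T' ↔ ¬ r ∈ T := by
    intro r
    rw [hT']
    exact Iff.rfl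
  have hlT : lw T' = 1 - lw T := by rw [hT', lw_compl]
  filter_upwards [freq_le J hJ hd T hε hδ, freq_le J hJ hd T' hε hδ, ne_SN] with X h1 h2 h3 A hA hAc
  have hc : (0 : ℝ) < ((SN X).card : ℝ) := by exact_mod_cast h3.card_pos
  have hA0 : (0 : ℝ) < (A.card : ℝ) := lt_of_lt_of_le (mul_pos hδ hc) hAc
  have k1 := h1 A hA hAc
  have k2 := h2 A hA hAc
  have hsum : ∀ m : Fin n → ℕ, ((A.filter fun D => rv' m D ∈ T).card : ℝ) +
      ((A.filter fun D => rv' m D ∈ T').card : ℝ) = (A.card : ℝ) := by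
    intro m
    have := Finset.card_filter_add_card_filter_not (s := A) (fun D => rv' m D ∈ T)
    have e : (A.filter fun D => rv' m D ∈ T').card = (A.filter fun D => ¬ rv' m D ∈ T).card :=
      Q283.Bin.fcc fun D _ => hmT _
    rw [e]
    exact_mod_cast this
  have hsub : (J.filter fun m => ε < |((A.filter fun D => rv' m D ∈ T).card : ℝ) / (A.card : ℝ) -
      lw T|) ⊆ (J.filter fun m => (lw T + ε) * (A.card : ℝ) <
        ((A.filter fun D => rv' m D ∈ T).card : ℝ)) ∪ (J.filter fun m =>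
        (lw T' + ε) * (A.card : ℝ) < ((A.filter fun D => rv' m D ∈ T').card : ℝ)) := by
    intro m hm
    rw [mem_filter] at hm
    rw [mem_union, mem_filter, mem_filter]
    rcases lt_abs.1 hm.2 with h | h
    · left
      refine ⟨hm.1, ?_⟩
      rw [← lt_div_iff₀ hA0]
      linarith
    · right
      refine ⟨hm.1, ?_⟩
      rw [hlT]
      have h5 := hsum m
      have h6 : ((A.filter fun D => rv' m D ∈ T).card : ℝ) / (A.card : ℝ) < lw T - ε := by linarith
      rw [div_lt_iff₀ hA0] at h6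
      linarith
  have h7 : ((J.filter fun m => ε < |((A.filter fun D => rv' m D ∈ T).card : ℝ) / (A.card : ℝ) -
      lw T|).card : ℝ) ≤ ((J.filter fun m => (lw T + ε) * (A.card : ℝ) <
        ((A.filter fun D => rv' m D ∈ T).card : ℝ)).card : ℝ) + ((J.filter fun m =>
        (lw T' + ε) * (A.card : ℝ) < ((A.filter fun D => rv' m D ∈ T').card : ℝ)).card : ℝ) := by
    exact_mod_cast (card_le_card hsub).trans (card_union_le _ _)
  have h8 : (1 / 2 / (δ * ε ^ 2) + 1 / 2 / (δ * ε ^ 2) : ℝ) = 1 / (δ * ε ^ 2) := by ring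
  linarith

/-! ### The average -/

theorem sq_geo (r : ℕ) : ((r + 2 : ℕ) : ℝ) ^ 2 * cq (r + 2) ≤ 4 * cq 2 * (3 / 200) ^ r := by
  induction r with
  | zero => norm_num
  | succ r ih =>
    have h1 := ratio (r := r + 2) (by omega)
    have h2 : (0 : ℝ) ≤ ((r + 2 : ℕ) : ℝ) * cq (r + 2) := mul_nonneg (Nat.cast_nonneg _) (cq_ge _)
    have h3 : ((r + 1 + 2 : ℕ) : ℝ) ≤ 3 / 2 * ((r + 2 : ℕ) : ℝ) := by
      push_cast
      have : (0 : ℝ) ≤ r := Nat.cast_nonneg r
      linarith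
    have h4 : ((r + 1 + 2 : ℕ) : ℝ) ^ 2 * cq (r + 1 + 2) ≤
        (3 / 2 * ((r + 2 : ℕ) : ℝ)) * (((r + 2 : ℕ) : ℝ) * cq (r + 2) * (1 / 100)) := by
      calc ((r + 1 + 2 : ℕ) : ℝ) ^ 2 * cq (r + 1 + 2)
          = ((r + 1 + 2 : ℕ) : ℝ) * (((r + 1 + 2 : ℕ) : ℝ) * cq (r + 1 + 2)) := by ring
        _ ≤ (3 / 2 * ((r + 2 : ℕ) : ℝ)) * (((r + 2 : ℕ) : ℝ) * cq (r + 2) * (1 / 100)) := by
            refine mul_le_mul h3 h1 (mul_nonneg (Nat.cast_nonneg _) (cq_ge _)) (by positivity)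
    calc ((r + 1 + 2 : ℕ) : ℝ) ^ 2 * cq (r + 1 + 2)
        ≤ (((r + 2 : ℕ) : ℝ) ^ 2 * cq (r + 2)) * (3 / 200) := h4.trans (le_of_eq (by ring))
      _ ≤ (4 * cq 2 * (3 / 200) ^ r) * (3 / 200) := mul_le_mul_of_nonneg_right ih (by norm_num)
      _ = 4 * cq 2 * (3 / 200) ^ (r + 1) := by ring

theorem sq_shift : Summable fun r : ℕ => ((r + 2 : ℕ) : ℝ) ^ 2 * cq (r + 2) := by
  refine Summable.of_nonneg_of_le (fun r => mul_nonneg (sq_nonneg _) (cq_ge _)) sq_geo ?_
  exact (summable_geometric_of_lt_one (by norm_num) (by norm_num)).mul_left _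

theorem sq_summ : Summable fun r : ℕ => (r : ℝ) ^ 2 * cq r := (summable_nat_add_iff 2).1 sq_shift

theorem c3_lt : c3 < 0.5602 := by
  obtain ⟨h1, -, -, -⟩ := Pool.Agent.Y461.CX.t_C3
  have h5 := (abs_le.1 (h1 10)).1
  have h6 : ∏ i ∈ Finset.range 10, (1 - (1 / 3 : ℝ) ^ (i + 1)) < 0.56015 := by
    norm_num [Finset.prod_range_succ]
  have h7 : (1 / 3 : ℝ) ^ 10 < 0.00002 := by norm_num
  linarith

theorem sq_lt : ∑' r : ℕ, (r : ℝ) ^ 2 * cq r < 3 / 4 := by
  rw [← sq_summ.sum_add_tsum_nat_add 2]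
  have h1 : ∑' r : ℕ, ((r + 2 : ℕ) : ℝ) ^ 2 * cq (r + 2) ≤ 4 * cq 2 * (200 / 197) := by
    have h2 := (summable_geometric_of_lt_one (r := (3 / 200 : ℝ)) (by norm_num)
      (by norm_num)).mul_left (4 * cq 2)
    refine (sq_shift.tsum_le_tsum sq_geo h2).trans (le_of_eq ?_)
    rw [tsum_mul_left, tsum_geometric_of_lt_one (by norm_num) (by norm_num)]
    norm_num
  rw [cq_two] at h1
  have h2 : ∑ i ∈ range 2, (i : ℝ) ^ 2 * cq i = 3 / 4 * c3 := by
    rw [sum_range_succ, sum_range_one, cq_one]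
    push_cast
    ring
  rw [h2]
  have h3 := c3_lt
  have h4 := c3_pos
  nlinarith

theorem mean_lt : 2 * (∑' r : ℕ, (r : ℝ) * cq r) ≤ 0.92 := by
  have h1 := mean_eq
  have h2 := c3_lt
  have h3 : (3 / 4 + 9 / 128 * (100 / 99) : ℝ) ≤ 0.82103 := by norm_num
  have h4 : (3 / 4 + 9 / 128 * (100 / 99) : ℝ) * c3 ≤ 0.82103 * 0.5602 :=
    mul_le_mul h3 h2.le c3_pos.le (by norm_num)
  have h5 : (0.82103 * 0.5602 : ℝ) ≤ 0.46 := by norm_num
  linarith

/-- the probability of the ranks larger than `b` -/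
noncomputable def pb (b : ℕ) : ℝ := ms {r | b + 1 ≤ r}

theorem lw_one (T : Set ℕ) : lw {r : Fin 1 → ℕ | r 0 ∈ T} = ms T := by
  have h := (Equiv.funUnique (Fin 1) ℕ).hasSum_iff.2 (ms_hasSum T)
  refine (lw_hasSum _).unique (h.congr_fun fun r => ?_)
  show (if r 0 ∈ T then ∏ k, cq (r k) else 0) = if r 0 ∈ T then cq (r 0) else 0
  rw [Fin.prod_univ_one]

theorem one {m : ℕ} (hm : IsM m) (b : ℕ) : Tendsto (fun X : ℕ =>
      (∑ D ∈ SN X, if b + 1 ≤ rr (D * m) then (1 : ℝ) else 0) / ((SN X).card : ℝ)) atTop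
      (𝓝 (pb b)) := by
  have h := law1 (fun _ : Fin 1 => m) (fun _ => hm) (fun _ _ _ => Subsingleton.elim _ _)
    {r : Fin 1 → ℕ | r 0 ∈ {r | b + 1 ≤ r}}
  rw [lw_one] at h
  refine h.congr fun X => ?_
  rw [card_filter]
  push_cast
  rfl

theorem two {m m' : ℕ} (hm : IsM m) (hm' : IsM m') (hne : m ≠ m') (b b' : ℕ) :
    Tendsto (fun X : ℕ => (∑ D ∈ SN X, (if b + 1 ≤ rr (D * m) then (1 : ℝ) else 0) *
      (if b' + 1 ≤ rr (D * m') then (1 : ℝ) else 0)) / ((SN X).card : ℝ)) atTop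
      (𝓝 (pb b * pb b')) := by
  have h := law2 (fun _ : Fin 1 => m) (fun _ : Fin 1 => m') (fun _ => hm) (fun _ => hm')
    (fun _ _ _ => Subsingleton.elim _ _) (fun _ _ _ => Subsingleton.elim _ _) (fun _ _ => hne)
    {r : Fin 1 → ℕ | r 0 ∈ {r | b + 1 ≤ r}} {r : Fin 1 → ℕ | r 0 ∈ {r | b' + 1 ≤ r}}
  rw [lw_one, lw_one] at h
  refine h.congr fun X => ?_
  rw [card_filter]
  push_cast
  congr 1
  refine sum_congr rfl fun D _ => ?_
  have e1 : (rv' (fun _ : Fin 1 => m) D ∈ {r : Fin 1 → ℕ | r 0 ∈ {r | b + 1 ≤ r}} ∧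
      rv' (fun _ : Fin 1 => m') D ∈ {r : Fin 1 → ℕ | r 0 ∈ {r | b' + 1 ≤ r}}) ↔
      (b + 1 ≤ rr (D * m) ∧ b' + 1 ≤ rr (D * m')) := Iff.rfl
  by_cases h1 : b + 1 ≤ rr (D * m)
  · by_cases h2 : b' + 1 ≤ rr (D * m')
    · rw [if_pos h1, if_pos h2, if_pos (e1.2 ⟨h1, h2⟩), mul_one]
    · rw [if_neg h2, if_neg fun h => h2 (e1.1 h).2, mul_zero]
  · rw [if_neg h1, if_neg fun h => h1 (e1.1 h).1, zero_mul]

/-- the truncated rank -/
noncomputable def tr (B m D : ℕ) : ℝ := 2 * ∑ b ∈ range B, if b + 1 ≤ rr (D * m) then (1 : ℝ) else 0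

theorem tr_eq (B m D : ℕ) : tr B m D = 2 * ((min (rr (D * m)) B : ℕ) : ℝ) := by
  unfold tr
  rw [min_sum]
  push_cast
  rfl

/-- the limit of the mean -/
noncomputable def mu (B : ℕ) : ℝ := 2 * ∑ b ∈ range B, pb b

theorem mu_le (B : ℕ) : mu B ≤ 0.92 := by
  have h1 := tails B
  have h2 := mean_lt
  unfold mu pb
  linarith

theorem second_lt (B : ℕ) : 4 * ∑ b ∈ range B, ∑ b' ∈ range B, pb (max b b') < 3 := by
  have h1 : HasSum (fun r : ℕ => ∑ b ∈ range B, ∑ b' ∈ range B, if max b b' + 1 ≤ r then cq r else 0)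
      (∑ b ∈ range B, ∑ b' ∈ range B, pb (max b b')) := by
    refine hasSum_sum fun b _ => hasSum_sum fun b' _ => ?_
    refine (ms_hasSum {r | max b b' + 1 ≤ r}).congr_fun fun r => ?_
    by_cases h : max b b' + 1 ≤ r
    · rw [if_pos h]
      exact (if_pos h).symm
    · rw [if_neg h]
      exact (if_neg h).symm
  have h2 : ∑ b ∈ range B, ∑ b' ∈ range B, pb (max b b') ≤ ∑' r : ℕ, (r : ℝ) ^ 2 * cq r := by
    refine hasSum_le (fun r => ?_) h1 sq_summ.hasSum
    have e : ∀ b b', (if max b b' + 1 ≤ r then cq r else 0) =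
        ((if b + 1 ≤ r then (1 : ℝ) else 0) * (if b' + 1 ≤ r then (1 : ℝ) else 0)) * cq r := by
      intro b b'
      by_cases hb : b + 1 ≤ r <;> by_cases hb' : b' + 1 ≤ r
      · rw [if_pos hb, if_pos hb', if_pos (by omega)]
        ring
      · rw [if_pos hb, if_neg hb', if_neg (by omega)]
        ring
      · rw [if_neg hb, if_pos hb', if_neg (by omega)]
        ring
      · rw [if_neg hb, if_neg hb', if_neg (by omega)]
        ring
    simp only [e]
    have e2 : ∑ b ∈ range B, ∑ b' ∈ range B, ((if b + 1 ≤ r then (1 : ℝ) else 0) *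
        (if b' + 1 ≤ r then (1 : ℝ) else 0)) * cq r =
        (∑ b ∈ range B, (if b + 1 ≤ r then (1 : ℝ) else 0)) ^ 2 * cq r := by
      rw [pow_two, sum_mul_sum, sum_mul]
      exact sum_congr rfl fun b _ => (sum_mul _ _ _).symm
    rw [e2]
    have e3 : ∑ b ∈ range B, (if b + 1 ≤ r then (1 : ℝ) else 0) = ((min r B : ℕ) : ℝ) := by
      rw [min_sum]
      push_cast
      rfl
    rw [e3]
    refine mul_le_mul_of_nonneg_right ?_ (cq_ge r)
    refine pow_le_pow_left₀ (Nat.cast_nonneg _) ?_ 2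
    exact_mod_cast min_le_left r B
  have h3 := sq_lt
  linarith

theorem swap3 (S : Finset ℕ) (B : ℕ) (g : ℕ → ℕ → ℕ → ℝ) (c : ℝ) :
    (∑ D ∈ S, ∑ b ∈ range B, ∑ b' ∈ range B, g D b b') / c =
      ∑ b ∈ range B, ∑ b' ∈ range B, (∑ D ∈ S, g D b b') / c := by
  have e : ∑ D ∈ S, ∑ b ∈ range B, ∑ b' ∈ range B, g D b b' =
      ∑ b ∈ range B, ∑ b' ∈ range B, ∑ D ∈ S, g D b b' := by
    rw [sum_comm]
    exact sum_congr rfl fun b _ => sum_comm
  rw [e, sum_div]
  exact sum_congr rfl fun b _ => sum_div _ _ _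

/-- **The average over arbitrary dense sets, uniformly.** -/
theorem average (J : Finset ℕ) (hJ : ∀ m ∈ J, IsM m) (B : ℕ) {ε δ : ℝ} (hε : 0 < ε)
    (hδ : 0 < δ) :
    ∀ᶠ X in atTop, ∀ A ⊆ SN X, δ * ((SN X).card : ℝ) ≤ (A.card : ℝ) →
      ((J.filter fun m => (0.92 + ε) * (A.card : ℝ) <
        ∑ D ∈ A, 2 * ((min (rr (D * m)) B : ℕ) : ℝ)).card : ℝ) ≤ 3 / (δ * ε ^ 2) := by
  have h := uni' ne_SN J (fun m D => tr B m D) (mu B)
    (4 * ∑ b ∈ range B, ∑ b' ∈ range B, pb (max b b')) 3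
    (by nlinarith [second_lt B, sq_nonneg (mu B)]) (by norm_num)
    (fun m hm => by
      have h1 : Tendsto (fun X : ℕ => 2 * ∑ b ∈ range B,
          (∑ D ∈ SN X, if b + 1 ≤ rr (D * m) then (1 : ℝ) else 0) / ((SN X).card : ℝ)) atTop
          (𝓝 (mu B)) := (tendsto_finsetSum _ fun b _ => one (hJ m hm) b).const_mul _
      refine h1.congr fun X => ?_
      unfold tr
      rw [← mul_sum, sum_comm, ← sum_div, mul_div_assoc])
    (fun m hm => by
      have h1 : Tendsto (fun X : ℕ => 4 * ∑ b ∈ range B, ∑ b' ∈ range B,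
          (∑ D ∈ SN X, if max b b' + 1 ≤ rr (D * m) then (1 : ℝ) else 0) / ((SN X).card : ℝ)) atTop
          (𝓝 (4 * ∑ b ∈ range B, ∑ b' ∈ range B, pb (max b b'))) :=
        (tendsto_finsetSum _ fun b _ => tendsto_finsetSum _ fun b' _ =>
          one (hJ m hm) (max b b')).const_mul _
      refine h1.congr fun X => ?_
      have e : ∀ D, tr B m D ^ 2 = 4 * ∑ b ∈ range B, ∑ b' ∈ range B,
          if max b b' + 1 ≤ rr (D * m) then (1 : ℝ) else 0 := by
        intro D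
        unfold tr
        rw [mul_pow, pow_two (∑ b ∈ range B, _), sum_mul_sum]
        norm_num only
        congr 1
        refine sum_congr rfl fun b _ => sum_congr rfl fun b' _ => ?_
        by_cases hb : b + 1 ≤ rr (D * m) <;> by_cases hb' : b' + 1 ≤ rr (D * m)
        · rw [if_pos hb, if_pos hb', if_pos (by omega)]
          ring
        · rw [if_pos hb, if_neg hb', if_neg (by omega)]
          ring
        · rw [if_neg hb, if_pos hb', if_neg (by omega)]
          ring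
        · rw [if_neg hb, if_neg hb', if_neg (by omega)]
          ring
      simp only [e]
      rw [← mul_sum, mul_div_assoc]
      congr 1
      exact (swap3 _ _ _ _).symm)
    (fun m hm m' hm' hne => by
      have h1 : Tendsto (fun X : ℕ => 4 * ∑ b ∈ range B, ∑ b' ∈ range B,
          (∑ D ∈ SN X, (if b + 1 ≤ rr (D * m) then (1 : ℝ) else 0) *
            (if b' + 1 ≤ rr (D * m') then (1 : ℝ) else 0)) / ((SN X).card : ℝ)) atTop
          (𝓝 (4 * ∑ b ∈ range B, ∑ b' ∈ range B, pb b * pb b')) :=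
        (tendsto_finsetSum _ fun b _ => tendsto_finsetSum _ fun b' _ =>
          two (hJ m hm) (hJ m' hm') hne b b').const_mul _
      have e1 : 4 * ∑ b ∈ range B, ∑ b' ∈ range B, pb b * pb b' = mu B * mu B := by
        unfold mu
        rw [← sum_mul_sum]
        ring
      rw [e1] at h1
      refine h1.congr fun X => ?_
      have e : ∀ D, tr B m D * tr B m' D = 4 * ∑ b ∈ range B, ∑ b' ∈ range B,
          (if b + 1 ≤ rr (D * m) then (1 : ℝ) else 0) *
            (if b' + 1 ≤ rr (D * m') then (1 : ℝ) else 0) := by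
        intro D
        unfold tr
        rw [← sum_mul_sum]
        ring
      simp only [e]
      rw [← mul_sum, mul_div_assoc]
      congr 1
      exact (swap3 _ _ _ _).symm) hε hδ
  filter_upwards [h] with X hX A hA hAc
  refine le_trans ?_ (hX A hA hAc)
  rw [Nat.cast_le]
  refine card_le_card fun m hm => ?_
  rw [mem_filter] at hm ⊢
  refine ⟨hm.1, lt_of_le_of_lt ?_ (hm.2.trans_le (le_of_eq ?_))⟩
  · exact mul_le_mul_of_nonneg_right (by linarith [mu_le B]) (Nat.cast_nonneg _)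
  · exact sum_congr rfl fun D _ => (tr_eq B m D).symm

end Run7.h460.QA
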