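import Mathlib

/-!
# Uniform mixing

`f i`, `i ∈ J`, are finitely many functions on `S X` which in the limit have the mean `μ` and are
uncorrelated, with variance less than `V`. Then for all large `X` and ALL subsets `A` of `S X` with at
least `δ |S X|` elements the average of `f i` over `A` is at most `μ + ε` for all `i ∈ J` but at most
`V / (δ ε²)`.
-/

set_option autoImplicit false

open scoped Classical

namespace Run7.h460.QA

open Finset Filter Topology

variable {α ι : Type*}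

/-- **Uniform mixing.** -/
theorem uni {S : ℕ → Finset α} (hne : ∀ᶠ X in atTop, (S X).Nonempty) (J : Finset ι)
    (f : ι → α → ℝ) (μ V v : ℝ) (hv : v < V) (hV : 0 < V)
    (h2 : ∀ i ∈ J, Tendsto (fun X => (∑ D ∈ S X, (f i D - μ) ^ 2) / ((S X).card : ℝ)) atTop (𝓝 v))
    (h3 : ∀ i ∈ J, ∀ j ∈ J, i ≠ j → Tendsto (fun X =>
      (∑ D ∈ S X, (f i D - μ) * (f j D - μ)) / ((S X).card : ℝ)) atTop (𝓝 0))
    {ε δ : ℝ} (hε : 0 < ε) (hδ : 0 < δ) :
    ∀ᶠ X in atTop, ∀ A ⊆ S X, δ * ((S X).card : ℝ) ≤ (A.card : ℝ) →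
      ((J.filter fun i => (μ + ε) * (A.card : ℝ) < ∑ D ∈ A, f i D).card : ℝ) ≤
        V / (δ * ε ^ 2) := by
  -- the second moments of the sums
  have key : ∀ I ∈ J.powerset, ∀ᶠ X in atTop,
      ∑ D ∈ S X, (∑ i ∈ I, (f i D - μ)) ^ 2 ≤ V * I.card * ((S X).card : ℝ) := by
    intro I hI
    rw [mem_powerset] at hI
    rcases I.eq_empty_or_nonempty with rfl | hIne
    · filter_upwards with X
      simp
    have hlim : Tendsto (fun X => (∑ D ∈ S X, (∑ i ∈ I, (f i D - μ)) ^ 2) / ((S X).card : ℝ))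
        atTop (𝓝 (∑ i ∈ I, ∑ j ∈ I, if i = j then v else 0)) := by
      have e : ∀ X, (∑ D ∈ S X, (∑ i ∈ I, (f i D - μ)) ^ 2) / ((S X).card : ℝ) =
          ∑ i ∈ I, ∑ j ∈ I, (∑ D ∈ S X, (f i D - μ) * (f j D - μ)) / ((S X).card : ℝ) := by
        intro X
        have e1 : ∑ D ∈ S X, (∑ i ∈ I, (f i D - μ)) ^ 2 =
            ∑ i ∈ I, ∑ j ∈ I, ∑ D ∈ S X, (f i D - μ) * (f j D - μ) := by
          have e2 : ∀ D, (∑ i ∈ I, (f i D - μ)) ^ 2 =
              ∑ i ∈ I, ∑ j ∈ I, (f i D - μ) * (f j D - μ) := by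
            intro D
            rw [pow_two, sum_mul_sum]
          rw [sum_congr rfl fun D _ => e2 D, sum_comm]
          exact sum_congr rfl fun i _ => sum_comm
        rw [e1, sum_div]
        exact sum_congr rfl fun i _ => sum_div _ _ _
      simp only [e]
      refine tendsto_finsetSum _ fun i hi => tendsto_finsetSum _ fun j hj => ?_
      by_cases hij : i = j
      · subst hij
        rw [if_pos rfl]
        refine (h2 i (hI hi)).congr fun X => ?_
        congr 1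
        exact sum_congr rfl fun D _ => pow_two _
      · rw [if_neg hij]
        exact h3 i (hI hi) j (hI hj) hij
    have hval : (∑ i ∈ I, ∑ j ∈ I, if i = j then v else 0) < V * I.card := by
      have e1 : ∀ i ∈ I, (∑ j ∈ I, if i = j then v else 0) = v := fun i hi => by
        rw [sum_ite_eq, if_pos hi]
      rw [sum_congr rfl e1, sum_const, nsmul_eq_mul, mul_comm]
      have : (0 : ℝ) < I.card := by exact_mod_cast hIne.card_pos
      exact mul_lt_mul_of_pos_right hv this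
    filter_upwards [hlim.eventually (gt_mem_nhds hval), hne] with X hX hX2
    have hc : (0 : ℝ) < ((S X).card : ℝ) := by exact_mod_cast hX2.card_pos
    rw [div_lt_iff₀ hc] at hX
    exact hX.le
  have key2 : ∀ᶠ X in atTop, ∀ I ∈ J.powerset,
      ∑ D ∈ S X, (∑ i ∈ I, (f i D - μ)) ^ 2 ≤ V * I.card * ((S X).card : ℝ) := by
    rw [eventually_all_finset]
    exact key
  filter_upwards [key2, hne] with X hX hX2 A hA hAc
  have hc : (0 : ℝ) < ((S X).card : ℝ) := by exact_mod_cast hX2.card_pos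
  have hA0 : (0 : ℝ) < (A.card : ℝ) := lt_of_lt_of_le (mul_pos hδ hc) hAc
  obtain ⟨I, hI⟩ : ∃ I, I = J.filter fun i => (μ + ε) * (A.card : ℝ) < ∑ D ∈ A, f i D :=
    ⟨_, rfl⟩
  rw [← hI]
  have hIJ : I ∈ J.powerset := by
    rw [mem_powerset, hI]
    exact filter_subset _ _
  have h1 := hX I hIJ
  rcases I.eq_empty_or_nonempty with rfl | hIne
  · rw [card_empty, Nat.cast_zero]
    positivity
  have hI0 : (0 : ℝ) < (I.card : ℝ) := by exact_mod_cast hIne.card_pos
  have k1 : ε * I.card * A.card ≤ ∑ D ∈ A, ∑ i ∈ I, (f i D - μ) := by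
    rw [sum_comm]
    have : ∑ i ∈ I, ε * (A.card : ℝ) ≤ ∑ i ∈ I, ∑ D ∈ A, (f i D - μ) := by
      refine sum_le_sum fun i hi => ?_
      rw [hI, mem_filter] at hi
      rw [sum_sub_distrib, sum_const, nsmul_eq_mul]
      have := hi.2
      linarith
    rw [sum_const, nsmul_eq_mul] at this
    linarith
  have k2 : (∑ D ∈ A, ∑ i ∈ I, (f i D - μ)) ^ 2 ≤ A.card * (V * I.card * ((S X).card : ℝ)) := by
    refine (sq_sum_le_card_mul_sum_sq).trans ?_
    refine mul_le_mul_of_nonneg_left (le_trans ?_ h1) hA0.le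
    exact sum_le_sum_of_subset_of_nonneg hA fun _ _ _ => sq_nonneg _
  have k3 : (ε * I.card * A.card) ^ 2 ≤ A.card * (V * I.card * ((S X).card : ℝ)) :=
    (pow_le_pow_left₀ (by positivity) k1 2).trans k2
  have k4 : ε ^ 2 * I.card * A.card ≤ V * ((S X).card : ℝ) := by
    have h5 : (I.card * A.card : ℝ) * (ε ^ 2 * I.card * A.card) ≤
        (I.card * A.card : ℝ) * (V * ((S X).card : ℝ)) := by
      calc (I.card * A.card : ℝ) * (ε ^ 2 * I.card * A.card) = (ε * I.card * A.card) ^ 2 := by ring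
        _ ≤ _ := k3
        _ = (I.card * A.card : ℝ) * (V * ((S X).card : ℝ)) := by ring
    exact le_of_mul_le_mul_left h5 (by positivity)
  rw [le_div_iff₀ (by positivity)]
  have k5 : (I.card * (δ * ε ^ 2)) * ((S X).card : ℝ) ≤ V * ((S X).card : ℝ) := by
    calc (I.card * (δ * ε ^ 2)) * ((S X).card : ℝ) = ε ^ 2 * I.card * (δ * ((S X).card : ℝ)) := by
          ring
      _ ≤ ε ^ 2 * I.card * A.card := mul_le_mul_of_nonneg_left hAc (by positivity)
      _ ≤ _ := k4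
  exact le_of_mul_le_mul_right k5 hc

/-- the same for the moments -/
theorem uni' {S : ℕ → Finset α} (hne : ∀ᶠ X in atTop, (S X).Nonempty) (J : Finset ι)
    (f : ι → α → ℝ) (μ q V : ℝ) (hv : q - μ ^ 2 < V) (hV : 0 < V)
    (h1 : ∀ i ∈ J, Tendsto (fun X => (∑ D ∈ S X, f i D) / ((S X).card : ℝ)) atTop (𝓝 μ))
    (h2 : ∀ i ∈ J, Tendsto (fun X => (∑ D ∈ S X, f i D ^ 2) / ((S X).card : ℝ)) atTop (𝓝 q))
    (h3 : ∀ i ∈ J, ∀ j ∈ J, i ≠ j → Tendsto (fun X =>
      (∑ D ∈ S X, f i D * f j D) / ((S X).card : ℝ)) atTop (𝓝 (μ * μ)))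
    {ε δ : ℝ} (hε : 0 < ε) (hδ : 0 < δ) :
    ∀ᶠ X in atTop, ∀ A ⊆ S X, δ * ((S X).card : ℝ) ≤ (A.card : ℝ) →
      ((J.filter fun i => (μ + ε) * (A.card : ℝ) < ∑ D ∈ A, f i D).card : ℝ) ≤
        V / (δ * ε ^ 2) := by
  refine uni hne J f μ V (q - μ ^ 2) hv hV (fun i hi => ?_) (fun i hi j hj hij => ?_) hε hδ
  · have h : Tendsto (fun X => (∑ D ∈ S X, f i D ^ 2) / ((S X).card : ℝ) -
        2 * μ * ((∑ D ∈ S X, f i D) / ((S X).card : ℝ)) + μ ^ 2) atTop
        (𝓝 (q - 2 * μ * μ + μ ^ 2)) := ((h2 i hi).sub ((h1 i hi).const_mul _)).add_const _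
    have e : q - 2 * μ * μ + μ ^ 2 = q - μ ^ 2 := by ring
    rw [e] at h
    refine h.congr' ?_
    filter_upwards [hne] with X hX
    have hc : ((S X).card : ℝ) ≠ 0 := by exact_mod_cast hX.card_pos.ne'
    have e2 : ∑ D ∈ S X, (f i D - μ) ^ 2 = ∑ D ∈ S X, f i D ^ 2 - 2 * μ * ∑ D ∈ S X, f i D +
        ((S X).card : ℝ) * μ ^ 2 := by
      rw [← nsmul_eq_mul, ← sum_const, mul_sum, ← sum_sub_distrib, ← sum_add_distrib]
      exact sum_congr rfl fun D _ => by ring
    rw [e2]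
    field_simp
  · have h : Tendsto (fun X => (∑ D ∈ S X, f i D * f j D) / ((S X).card : ℝ) -
        μ * ((∑ D ∈ S X, f i D) / ((S X).card : ℝ)) -
        μ * ((∑ D ∈ S X, f j D) / ((S X).card : ℝ)) + μ ^ 2) atTop
        (𝓝 (μ * μ - μ * μ - μ * μ + μ ^ 2)) :=
      (((h3 i hi j hj hij).sub ((h1 i hi).const_mul _)).sub ((h1 j hj).const_mul _)).add_const _
    have e : μ * μ - μ * μ - μ * μ + μ ^ 2 = 0 := by ring
    rw [e] at h
    refine h.congr' ?_
    filter_upwards [hne] with X hX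
    have hc : ((S X).card : ℝ) ≠ 0 := by exact_mod_cast hX.card_pos.ne'
    have e2 : ∑ D ∈ S X, (f i D - μ) * (f j D - μ) = ∑ D ∈ S X, f i D * f j D -
        μ * ∑ D ∈ S X, f i D - μ * ∑ D ∈ S X, f j D + ((S X).card : ℝ) * μ ^ 2 := by
      rw [← nsmul_eq_mul, ← sum_const, mul_sum, mul_sum, ← sum_sub_distrib, ← sum_sub_distrib,
        ← sum_add_distrib]
      exact sum_congr rfl fun D _ => by ring
    rw [e2]
    field_simp

end Run7.h460.QA
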